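import Pool.Agent.TI.Main

/-!
# Codimension of tight immersions of projective spaces

For `F = ℝ, ℂ, ℍ` (`d = 1, 2, 4`), every `n ≥ 1` and every continuous, tight and substantial map
`f` of the projective space `FP^n` into Euclidean `N`-space, `N - d n ≤ n + d (n choose 2)`.
-/

namespace Pool.Agent.Results.MP_9697d1_gt.CodimensionBound

open TI

theorem result :
    (∀ (n N : ℕ) (f : FPn ℝ n → E N), 1 ≤ n → Continuous f → Tight f → Substantial f →
      (N : ℤ) - 1 * n ≤ n + 1 * n.choose 2) ∧
    (∀ (n N : ℕ) (f : FPn ℂ n → E N), 1 ≤ n → Continuous f → Tight f → Substantial f →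
      (N : ℤ) - 2 * n ≤ n + 2 * n.choose 2) ∧
    (∀ (n N : ℕ) (f : FPn (Quaternion ℝ) n → E N), 1 ≤ n → Continuous f → Tight f →
      Substantial f → (N : ℤ) - 4 * n ≤ n + 4 * n.choose 2) :=
  ⟨fun n N f hn hf ht hs => by simpa using goal.1 n N f hn hf ht hs,
    fun n N f hn hf ht hs => by simpa using goal.2.1 n N f hn hf ht hs,
    fun n N f hn hf ht hs => by simpa using goal.2.2 n N f hn hf ht hs⟩

end Pool.Agent.Results.MP_9697d1_gt.CodimensionBound
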